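import Pool.Agent.Lib.MP_5c318e_ag.Um.Riem

/-! Multivalued holomorphic functions through their symmetric functions: the inequality of
Bernstein and Walsh for roots, and the mean value inequality for the largest value. -/

set_option autoImplicit false
set_option linter.unusedSectionVars false

namespace Pool.Agent.Lib.MP_5c318e_ag.Um

open MeasureTheory Set Filter Topology Metric Polynomial
open Pool.Agent.Lib.MP_9ff3e7_ag

theorem norm_prod_le {A : ℝ} (hA : 0 ≤ A) (t : Multiset ℂ) (h : ∀ w ∈ t, ‖w‖ ≤ A) :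
    ‖t.prod‖ ≤ A ^ t.card := by
  induction t using Multiset.induction_on with
  | empty => simp
  | cons a t ih =>
    rw [Multiset.prod_cons, Multiset.card_cons, norm_mul, pow_succ']
    exact mul_le_mul (h a (by simp)) (ih fun w hw => h w (by simp [hw])) (norm_nonneg _) hA

/-- the symmetric functions are bounded by the values -/
theorem norm_esymm_le {s : Multiset ℂ} {d : ℕ} (hd : s.card ≤ d) {A : ℝ} (hA : 0 ≤ A)
    (h : ∀ w ∈ s, ‖w‖ ≤ A) (j : ℕ) : ‖s.esymm j‖ ≤ (d * A) ^ j := by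
  refine (norm_multiset_sum_le _).trans ((Multiset.sum_le_card_nsmul _ (A ^ j) ?_).trans ?_)
  · simp only [Multiset.map_map, Multiset.mem_map]
    rintro _ ⟨t, ht, rfl⟩
    obtain ⟨h1, rfl⟩ := Multiset.mem_powersetCard.1 ht
    exact norm_prod_le hA t fun w hw => h w (Multiset.mem_of_le h1 hw)
  · simp only [Multiset.card_map, Multiset.card_powersetCard, nsmul_eq_mul, mul_pow]
    refine mul_le_mul_of_nonneg_right ?_ (pow_nonneg hA j)
    exact_mod_cast (Nat.choose_le_pow _ _).trans (Nat.pow_le_pow_left hd j)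

/-- the values are bounded by the symmetric functions -/
theorem exists_esymm_ge {s : Multiset ℂ} {w : ℂ} (hw : w ∈ s) :
    ∃ j, 1 ≤ j ∧ j ≤ s.card ∧ (‖w‖ / 2) ^ j ≤ ‖s.esymm j‖ := by
  have hc : 1 ≤ s.card := Multiset.card_pos_iff_exists_mem.2 ⟨w, hw⟩
  rcases (norm_nonneg w).eq_or_lt with h0 | h0
  · exact ⟨1, le_rfl, hc, by simp [← h0]⟩
  by_contra hn
  push Not at hn
  have e := congrArg (eval w) (Multiset.prod_X_sub_X_eq_sum_esymm s)
  rw [eval_multiset_prod, Multiset.prod_eq_zero (by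
    simp only [Multiset.map_map, Multiset.mem_map]
    exact ⟨w, hw, by simp⟩), eval_finsetSum, Finset.sum_range_succ'] at e
  simp only [eval_mul, eval_pow, eval_neg, eval_one, eval_C, eval_X, pow_zero, one_mul,
    tsub_zero] at e
  rw [show s.esymm 0 = 1 by simp [Multiset.esymm], one_mul, eq_comm, add_eq_zero_iff_eq_neg] at e
  have b : ‖w‖ ^ s.card ≤ ∑ k ∈ Finset.range s.card, ‖w‖ ^ s.card / 2 / 2 ^ k := by
    refine (show ‖w‖ ^ s.card = ‖-w ^ s.card‖ by simp).trans_le ?_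
    rw [← e]
    refine (norm_sum_le _ _).trans (Finset.sum_le_sum fun k hk => ?_)
    have hk' : k + 1 ≤ s.card := Finset.mem_range.1 hk
    rw [norm_mul, norm_mul, norm_pow, norm_neg, norm_one, one_pow, one_mul, norm_pow]
    refine (mul_le_mul_of_nonneg_right (hn _ (by omega) hk').le (by positivity)).trans_eq ?_
    obtain ⟨m, hm⟩ := Nat.exists_eq_add_of_le hk'
    rw [hm, Nat.add_sub_cancel_left, div_pow]
    field_simp
    ring
  have p : 0 < ‖w‖ ^ s.card := by positivity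
  have c := (hasSum_geometric_two' (‖w‖ ^ s.card)).summable.sum_le_tsum (Finset.range (s.card + 1))
    fun _ _ => by positivity
  rw [tsum_geometric_two', Finset.sum_range_succ] at c
  have : 0 < ‖w‖ ^ s.card / 2 / 2 ^ s.card := by positivity
  linarith

theorem norm_le_of_esymm {s : Multiset ℂ} {w : ℂ} (hw : w ∈ s) {B : ℝ} (hB : 0 ≤ B)
    (h : ∀ j, 1 ≤ j → j ≤ s.card → ‖s.esymm j‖ ≤ B ^ j) : ‖w‖ ≤ 2 * B := by
  obtain ⟨j, h1, h2, h3⟩ := exists_esymm_ge hw
  have := le_of_pow_le_pow_left₀ (by omega) hB (h3.trans (h j h1 h2))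
  linarith

theorem esymm_roots {p : ℂ[X]} (hp : p.Monic) (j : ℕ) : p.roots.esymm j =
    if j ≤ p.natDegree then (-1) ^ j * p.coeff (p.natDegree - j) else 0 := by
  split_ifs with h
  · rw [coeff_eq_esymm_roots_of_card IsAlgClosed.card_roots_eq_natDegree (Nat.sub_le _ _),
      hp.leadingCoeff, Nat.sub_sub_self h, one_mul, ← mul_assoc, ← mul_pow]
    simp
  · rw [Multiset.esymm, Multiset.powersetCard_eq_empty _
      (by rw [IsAlgClosed.card_roots_eq_natDegree]; omega)]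
    simp

theorem norm_coeff_eq {p : ℂ[X]} (hp : p.Monic) {j : ℕ} (h : j ≤ p.natDegree) :
    ‖p.roots.esymm j‖ = ‖p.coeff (p.natDegree - j)‖ := by
  simp [esymm_roots hp, h]

section bw

variable {ν A : Type} [Fintype ν] [CommRing A]

/-- the inequality of Bernstein and Walsh for a ball -/
theorem bw (φ : A →+* ℂ) {p : MvPolynomial ν A} {n : ℕ} (hp : p.totalDegree ≤ n) {ρ B : ℝ}
    (hρ : 0 < ρ) (h : ∀ l : ν → ℂ, ‖l‖ ≤ ρ → ‖p.eval₂ φ l‖ ≤ B) (l : ν → ℂ) :
    ‖p.eval₂ φ l‖ ≤ B * max 1 (‖l‖ / ρ) ^ n := by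
  rcases le_total ‖l‖ ρ with hl | hl
  · simpa [max_eq_left ((div_le_one hρ).2 hl)] using h l hl
  have r1 : 1 ≤ ‖l‖ / ρ := (one_le_div hρ).2 hl
  have r0 : 0 < ‖l‖ / ρ := one_pos.trans_le r1
  rw [max_eq_right r1]
  let f : ℂ → ℂ := fun s => ∑ m ∈ p.support, φ (p.coeff m) * (∏ i, l i ^ m i) * s ^ (n - ∑ i, m i)
  have d : Differentiable ℂ f := by fun_prop
  have e : ∀ s : ℂ, s ≠ 0 → f s = s ^ n * p.eval₂ φ (s⁻¹ • l) := fun s hs => by
    rw [MvPolynomial.eval₂_eq', Finset.mul_sum]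
    refine Finset.sum_congr rfl fun m hm => ?_
    have : ∑ i, m i ≤ n := by
      rw [← Finsupp.sum_fintype m (fun _ e => e) fun _ => rfl]
      exact (MvPolynomial.le_totalDegree hm).trans hp
    simp only [Pi.smul_apply, smul_eq_mul, mul_pow, Finset.prod_mul_distrib,
      Finset.prod_pow_eq_pow_sum]
    rw [pow_sub₀ _ hs this, inv_pow]
    ring
  have := Complex.norm_le_of_forall_mem_frontier_norm_le (U := ball (0 : ℂ) (‖l‖ / ρ))
    isBounded_ball d.diffContOnCl (C := B * (‖l‖ / ρ) ^ n) (z := 1) (fun s hs => by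
      rw [frontier_ball _ r0.ne', mem_sphere_zero_iff_norm] at hs
      rw [e s (norm_pos_iff.1 (hs ▸ r0)), norm_mul, norm_pow, hs, mul_comm]
      refine mul_le_mul_of_nonneg_right (h _ (le_of_eq ?_)) (by positivity)
      have := (hρ.trans_le hl).ne'
      rw [norm_smul, norm_inv, hs]
      field_simp) (by rw [closure_ball _ r0.ne']; simpa using r1)
  simpa [e 1 one_ne_zero] using this

theorem cont_eval₂ (φ : A →+* ℂ) (p : MvPolynomial ν A) :
    Continuous fun l : ν → ℂ => p.eval₂ φ l := by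
  simpa only [MvPolynomial.eval_map] using mv_cont (p.map φ)

theorem le_of_ae {f : (ν → ℂ) → ℝ} (hf : Continuous f) {ρ B : ℝ} (hρ : 0 < ρ)
    (h : ∀ᵐ l : ν → ℂ, ‖l‖ < ρ → f l ≤ B) (l : ν → ℂ) (hl : ‖l‖ ≤ ρ) : f l ≤ B := by
  have o : IsOpen (ball (0 : ν → ℂ) ρ ∩ {l | B < f l}) :=
    isOpen_ball.inter (isOpen_lt continuous_const hf)
  have := o.measure_eq_zero_iff volume |>.1 (measure_mono_null (t := {l | ¬ (‖l‖ < ρ → f l ≤ B)})
    (fun y hy k => (k (mem_ball_zero_iff.1 hy.1)).not_gt hy.2) h)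
  refine closure_minimal (s := ball 0 ρ) (fun y hy => ?_) (isClosed_le hf continuous_const)
    (by rw [closure_ball _ hρ.ne']; simpa using hl)
  exact not_lt.1 fun k : B < f y => eq_empty_iff_forall_notMem.1 this y ⟨hy, k⟩

/-- (U) roots of a monic polynomial whose coefficients have degree at most `j k` -/
theorem unif_poly (φ : A →+* ℂ) {Q : (MvPolynomial ν A)[X]} (hQ : Q.Monic) {k : ℕ}
    (hk : ∀ j ≤ Q.natDegree, (Q.coeff (Q.natDegree - j)).totalDegree ≤ j * k) {ρ Λ : ℝ}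
    (hρ : 0 < ρ) (hΛ : 0 ≤ Λ) (h : ∀ᵐ l : ν → ℂ, ‖l‖ < ρ →
      ∀ w, Q.eval₂ (MvPolynomial.eval₂Hom φ l) w = 0 → ‖w‖ ≤ Λ)
    (l : ν → ℂ) {w : ℂ} (hw : Q.eval₂ (MvPolynomial.eval₂Hom φ l) w = 0) :
    ‖w‖ ≤ 2 * Q.natDegree * Λ * max 1 (‖l‖ / ρ) ^ k := by
  have m : ∀ l : ν → ℂ, (Q.map (MvPolynomial.eval₂Hom φ l)).Monic := fun l => hQ.map _
  have r : ∀ (l : ν → ℂ) w, w ∈ (Q.map (MvPolynomial.eval₂Hom φ l)).roots ↔
      Q.eval₂ (MvPolynomial.eval₂Hom φ l) w = 0 := fun l w => by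
    rw [mem_roots (m l).ne_zero, IsRoot, eval_map]
  have c : ∀ l : ν → ℂ, (Q.map (MvPolynomial.eval₂Hom φ l)).roots.card = Q.natDegree := fun l => by
    rw [IsAlgClosed.card_roots_eq_natDegree, hQ.natDegree_map]
  have e : ∀ l : ν → ℂ, ∀ j ≤ Q.natDegree, ‖(Q.map (MvPolynomial.eval₂Hom φ l)).roots.esymm j‖ =
      ‖(Q.coeff (Q.natDegree - j)).eval₂ φ l‖ := fun l j hj => by
    rw [norm_coeff_eq (m l) (by rwa [hQ.natDegree_map]), hQ.natDegree_map, coeff_map]
    rfl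
  rw [mul_assoc, mul_assoc, ← mul_assoc (Q.natDegree : ℝ)]
  refine norm_le_of_esymm ((r l w).2 hw) (by positivity) fun j _ hj => ?_
  rw [c] at hj
  rw [e l j hj, mul_pow, ← pow_mul, mul_comm k]
  refine bw φ (hk j hj) hρ (le_of_ae (cont_eval₂ φ _).norm hρ ?_) l
  filter_upwards [h] with y hy k1
  rw [← e y j hj]
  exact norm_esymm_le (c y).le hΛ (fun w hw => hy k1 w ((r y w).1 hw)) j

/-- no hypothesis on the roots: the size is given by the degrees -/
theorem root_le (φ : A →+* ℂ) {Q : (MvPolynomial ν A)[X]} (hQ : Q.Monic) {k : ℕ}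
    (hk : ∀ j ≤ Q.natDegree, (Q.coeff (Q.natDegree - j)).totalDegree ≤ j * k) {B : ℝ} (hB : 0 ≤ B)
    (h : ∀ j, 1 ≤ j → j ≤ Q.natDegree → ∀ l : ν → ℂ, ‖l‖ ≤ 1 →
      ‖(Q.coeff (Q.natDegree - j)).eval₂ φ l‖ ≤ B ^ j)
    (l : ν → ℂ) {w : ℂ} (hw : Q.eval₂ (MvPolynomial.eval₂Hom φ l) w = 0) :
    ‖w‖ ≤ 2 * B * max 1 ‖l‖ ^ k := by
  have m : (Q.map (MvPolynomial.eval₂Hom φ l)).Monic := hQ.map _
  rw [mul_assoc]
  refine norm_le_of_esymm (s := (Q.map (MvPolynomial.eval₂Hom φ l)).roots)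
    (by rwa [mem_roots m.ne_zero, IsRoot, eval_map]) (by positivity) fun j h1 hj => ?_
  rw [IsAlgClosed.card_roots_eq_natDegree] at hj
  rw [norm_coeff_eq m hj, coeff_map, hQ.natDegree_map, mul_pow, ← pow_mul, mul_comm k]
  rw [hQ.natDegree_map] at hj
  simpa using bw φ (hk j hj) one_pos (h j h1 hj) l

end bw

section gen

variable {E : Type} [NormedAddCommGroup E] [NormedSpace ℂ E]

/-- `R` is a holomorphic multivalued function on `V` with at most `d` values -/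
structure MV (d : ℕ) (V : Set E) (R : E → Multiset ℂ) : Prop where
  card : ∀ z ∈ V, (R z).card ≤ d
  hol : ∀ j, ∀ z ∈ V, DifferentiableAt ℂ (fun y => (R y).esymm j) z

variable {Ω : Set E} {d : ℕ} {R : E → Multiset ℂ} {q : E}

theorem MV.mono {V V' : Set E} (h : MV d V R) (hs : V' ⊆ V) {d' : ℕ} (hd : d ≤ d') : MV d' V' R :=
  ⟨fun z hz => (h.card z (hs hz)).trans hd, fun j z hz => h.hol j z (hs hz)⟩

theorem MV.smul (h : MV d Ω R) {c : E → ℂ} (hc : ∀ z ∈ Ω, DifferentiableAt ℂ c z) :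
    MV d Ω fun z => (R z).map (c z • ·) :=
  ⟨fun z hz => by simpa using h.card z hz, fun j z hz => by
    simp only [← Multiset.pow_smul_esymm]
    exact ((hc z hz).pow j).smul (h.hol j z hz)⟩

/-- roots of monic polynomials with holomorphic coefficients -/
theorem MV.of_monic {Q : E → ℂ[X]} (hΩ : IsOpen Ω)
    (hm : ∀ z ∈ Ω, (Q z).Monic ∧ (Q z).natDegree = d)
    (hc : ∀ i, DifferentiableOn ℂ (fun z => (Q z).coeff i) Ω) : MV d Ω fun z => (Q z).roots := by
  refine ⟨fun z hz => by rw [IsAlgClosed.card_roots_eq_natDegree, (hm z hz).2], fun j z hz => ?_⟩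
  refine DifferentiableAt.congr_of_eventuallyEq
    (f := fun y => if j ≤ d then (-1) ^ j * (Q y).coeff (d - j) else 0) ?_
    (mem_of_superset (hΩ.mem_nhds hz) fun y hy => by simp [esymm_roots (hm y hy).1, (hm y hy).2])
  split_ifs
  · exact ((hc _).differentiableAt (hΩ.mem_nhds hz)).const_mul _
  · exact differentiableAt_const _

theorem circ_ball (q : E) (r : ℝ) : ∀ z ∈ ball q r, ∀ a : ℂ,
    ‖a‖ ≤ 1 → q + a • (z - q) ∈ ball q r := fun z hz a ha => by
  rw [add_mem_ball_iff_norm, norm_smul]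
  exact (mul_le_of_le_one_left (norm_nonneg _) ha).trans_lt (mem_ball_iff_norm.1 hz)

variable [FiniteDimensional ℂ E] [MeasurableSpace E] [BorelSpace E] {μ : Measure E}

theorem rot_pres (μ : Measure E) [μ.IsAddHaarMeasure] (x : E) {a : ℂ} (ha : ‖a‖ = 1) :
    MeasurePreserving (fun y : E => x + a • y) μ μ := by
  have := FiniteDimensional.proper ℂ E
  have a0 : a ≠ 0 := norm_pos_iff.1 (ha ▸ one_pos)
  refine (measurePreserving_add_left μ x).comp ⟨by fun_prop, ?_⟩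
  let T : E ≃L[ℂ] E := (Units.mk0 a a0) • ContinuousLinearEquiv.refl ℂ E
  have hT : ⇑T = fun y => a • y := rfl
  have : (μ.map T).IsAddHaarMeasure := T.isAddHaarMeasure_map μ
  have e := Measure.isAddLeftInvariant_eq_smul (μ.map T) μ
  have b : μ.map T (ball 0 1) = μ (ball 0 1) := by
    rw [Measure.map_apply T.continuous.measurable measurableSet_ball]
    congr 1
    ext y
    simp [hT, norm_smul, ha]
  rw [e, Measure.smul_apply, ENNReal.smul_def, smul_eq_mul, ENNReal.mul_eq_right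
    (measure_ball_pos μ 0 one_pos).ne' measure_ball_lt_top.ne, ENNReal.coe_eq_one] at b
  exact e.trans (by rw [b, one_smul])

/-- submean inequality for `log⁺ |G|` on any open set circled about `q` -/
theorem submean_haar [μ.IsAddHaarMeasure] (hΩ : IsOpen Ω)
    (hc : ∀ z ∈ Ω, ∀ a : ℂ, ‖a‖ ≤ 1 → q + a • (z - q) ∈ Ω) {G : E → ℂ}
    (hG : DifferentiableOn ℂ G Ω) :
    ENNReal.ofReal (Real.log ‖G q‖) * μ Ω ≤ ∫⁻ z in Ω, ENNReal.ofReal (Real.log ‖G z‖) ∂μ := by
  classical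
  have := FiniteDimensional.proper ℂ E
  let g := Ω.indicator fun y => ENNReal.ofReal (Real.posLog ‖G y‖)
  have gm : Measurable g := (ENNReal.continuous_ofReal.comp_continuousOn
    (Real.continuous_posLog.comp_continuousOn hG.continuousOn.norm)).measurable_piecewise
      continuousOn_const hΩ.measurableSet
  have key : ∀ y ∈ (fun y => q + y) ⁻¹' Ω, ENNReal.ofReal (Real.log ‖G q‖) ≤
      ∫⁻ t : F.Osg.Tc, g (q + fourier 1 t • y) ∂AddCircle.haarAddCircle := fun y hy => by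
    have m : ∀ a : ℂ, ‖a‖ ≤ 1 → q + a • y ∈ Ω := fun a ha => by simpa using hc _ hy a ha
    have d : DifferentiableOn ℂ (fun a : ℂ => G (q + a • y)) (closedBall 0 1) :=
      hG.comp (by fun_prop) fun a ha => m a (mem_closedBall_zero_iff.1 ha)
    have e := circ_log d
    rw [zero_smul, add_zero] at e
    have e2 := F.Osg.avg fun a : ℂ => ((Real.posLog ‖G (q + a • y)‖ : ℝ) : ℂ)
    have e3 : Real.circleAverage (fun a : ℂ => ((Real.posLog ‖G (q + a • y)‖ : ℝ) : ℂ)) 0 1 =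
        (Real.circleAverage (fun a : ℂ => Real.posLog ‖G (q + a • y)‖) 0 1 : ℝ) := by
      simp only [Real.circleAverage, intervalIntegral.integral_ofReal, Complex.real_smul,
        smul_eq_mul, Complex.ofReal_mul]
    refine (ENNReal.ofReal_le_ofReal (e.trans (le_abs_self _))).trans ?_
    rw [← Real.norm_eq_abs, ← Complex.norm_real, ← e3, ← e2, ofReal_norm]
    refine (enorm_integral_le_lintegral_enorm _).trans_eq (lintegral_congr fun t => ?_)
    simp only [g]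
    rw [Set.indicator_of_mem (m _ (F.Osg.nrm t).le), ← ofReal_norm, Complex.norm_real,
      Real.norm_of_nonneg Real.posLog_nonneg]
  calc _ = ∫⁻ _ in (fun y => q + y) ⁻¹' Ω, ENNReal.ofReal (Real.log ‖G q‖) ∂μ := by
        rw [setLIntegral_const, measure_preimage_add]
    _ ≤ ∫⁻ y, ∫⁻ t : F.Osg.Tc, g (q + fourier 1 t • y) ∂AddCircle.haarAddCircle ∂μ :=
        (setLIntegral_mono' (hΩ.preimage (continuous_const_add q)).measurableSet key).trans
          (setLIntegral_le_lintegral _ _)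
    _ = ∫⁻ t : F.Osg.Tc, (∫⁻ y, g (q + fourier 1 t • y) ∂μ) ∂AddCircle.haarAddCircle :=
        lintegral_lintegral_swap (gm.comp (Continuous.measurable (by fun_prop))).aemeasurable
    _ = ∫⁻ _ : F.Osg.Tc, (∫⁻ y, g y ∂μ) ∂AddCircle.haarAddCircle :=
        lintegral_congr fun t => (rot_pres μ q (F.Osg.nrm t)).lintegral_comp gm
    _ = _ := by
        rw [lintegral_const, measure_univ, mul_one, lintegral_indicator hΩ.measurableSet]
        simp only [ofReal_posLog]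

/-- the data of the mean value inequality: holomorphic functions on `Ω` that are the symmetric
functions of `R` at `q` and almost everywhere -/
structure MQ (μ : Measure E) (d : ℕ) (Ω : Set E) (R : E → Multiset ℂ) (q : E) : Prop where
  op : IsOpen Ω
  circ : ∀ z ∈ Ω, ∀ a : ℂ, ‖a‖ ≤ 1 → q + a • (z - q) ∈ Ω
  card0 : (R q).card ≤ d
  card : ∀ᵐ z ∂μ, z ∈ Ω → (R z).card ≤ d
  ex : ∀ j, ∃ H, DifferentiableOn ℂ H Ω ∧ H q = (R q).esymm j ∧
    ∀ᵐ z ∂μ, z ∈ Ω → H z = (R z).esymm j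

theorem MV.mq (h : MV d Ω R) (hΩ : IsOpen Ω) (hq : q ∈ Ω)
    (hc : ∀ z ∈ Ω, ∀ a : ℂ, ‖a‖ ≤ 1 → q + a • (z - q) ∈ Ω) : MQ μ d Ω R q :=
  ⟨hΩ, hc, h.card q hq, .of_forall h.card, fun j =>
    ⟨_, fun z hz => (h.hol j z hz).differentiableWithinAt, rfl, .of_forall fun _ _ => rfl⟩⟩

variable [μ.IsAddHaarMeasure]

/-- a continuous function below the largest value with the submean property -/
theorem MQ.key (h : MQ μ d Ω R q) {w0 : ℂ} (hw : w0 ∈ R q) (h0 : w0 ≠ 0) : ∃ F : E → ℝ,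
    ContinuousOn F Ω ∧ (∀ᵐ z ∂μ, z ∈ Ω → ∀ A, 0 ≤ A → (∀ w ∈ R z, ‖w‖ ≤ A) → F z ≤ A) ∧
    ∀ (u : E → ℝ) (L : ℝ), (∀ᵐ z ∂μ, z ∈ Ω → F z ≤ Real.exp (u z)) →
      ENNReal.ofReal (Real.log ‖w0‖ - Real.log (2 * d) + L) * μ Ω ≤
        ∫⁻ z in Ω, ENNReal.ofReal (u z + L) ∂μ := by
  obtain ⟨j, j1, j2, hj⟩ := exists_esymm_ge hw
  obtain ⟨H, hH, e0, e⟩ := h.ex j
  have d0 : (0 : ℝ) < d := by exact_mod_cast j1.trans (j2.trans h.card0)
  have j0 : j ≠ 0 := by omega
  have w0' := norm_pos_iff.2 h0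
  have iff : ∀ z A, 0 ≤ A → (‖H z‖ ^ (j : ℝ)⁻¹ / d ≤ A ↔ ‖H z‖ ≤ (d * A) ^ j) := fun z A hA => by
    rw [div_le_iff₀' d0, Real.rpow_inv_le_iff_of_pos (norm_nonneg _) (by positivity)
      (by positivity), Real.rpow_natCast]
  refine ⟨fun z => ‖H z‖ ^ (j : ℝ)⁻¹ / d,
    (hH.continuousOn.norm.rpow_const fun _ _ => Or.inr (by positivity)).div_const _, ?_,
    fun u L hu => ?_⟩
  · filter_upwards [e, h.card] with z b c k A hA a
    rw [iff z A hA, b k]
    exact norm_esymm_le (c k) hA a j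
  have n : ∀ z, ‖H z * ((Real.exp L / d : ℝ) : ℂ) ^ j‖ = ‖H z‖ * (Real.exp L / d) ^ j := fun z => by
    rw [norm_mul, norm_pow, Complex.norm_real, Real.norm_of_nonneg (by positivity)]
  have key := submean_haar (μ := μ) h.op h.circ (hH.mul_const (((Real.exp L / d : ℝ) : ℂ) ^ j))
  simp only [n] at key
  have jn : (j : ENNReal) ≠ 0 := by exact_mod_cast j0
  rw [← ENNReal.mul_le_mul_iff_right jn (ENNReal.natCast_ne_top j), ← mul_assoc,
    ← lintegral_const_mul' _ _ (ENNReal.natCast_ne_top j)]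
  simp only [← ENNReal.ofReal_natCast j, ← ENNReal.ofReal_mul (Nat.cast_nonneg j)]
  refine le_trans (mul_le_mul_left (ENNReal.ofReal_le_ofReal ?_) _) (key.trans
    (lintegral_mono_ae ?_))
  · refine le_trans (le_of_eq ?_) (Real.log_le_log (x := (‖w0‖ / 2 * (Real.exp L / d)) ^ j)
      (by positivity) (by rw [mul_pow, e0]; gcongr))
    rw [Real.log_pow, Real.log_mul two_ne_zero d0.ne', Real.log_mul (by positivity) (by positivity),
      Real.log_div w0'.ne' two_ne_zero, Real.log_div (by positivity) d0.ne', Real.log_exp]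
    ring
  · filter_upwards [ae_restrict_of_ae hu, ae_restrict_mem h.op.measurableSet] with z a k
    have := (iff z _ (Real.exp_pos _).le).1 (a k)
    rcases (norm_nonneg (H z)).eq_or_lt with z0 | z0
    · simp [← z0]
    refine ENNReal.ofReal_le_ofReal ((Real.log_le_log (by positivity)
      (y := Real.exp (u z + L) ^ j) ?_).trans_eq (by rw [Real.log_pow, Real.log_exp]))
    refine (mul_le_mul_of_nonneg_right this (by positivity)).trans_eq ?_
    rw [← mul_pow, Real.exp_add]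
    congr 1
    field_simp

/-- (M) quasi submean inequality for the largest value, truncated at the level `exp (-L)` -/
theorem MQ.submean (h : MQ μ d Ω R q) {w0 : ℂ} (hw : w0 ∈ R q) (h0 : w0 ≠ 0)
    {u : E → ℝ} (hu : ∀ᵐ z ∂μ, z ∈ Ω → ∀ w ∈ R z, ‖w‖ ≤ Real.exp (u z)) (L : ℝ) :
    ENNReal.ofReal (Real.log ‖w0‖ - Real.log (2 * d) + L) * μ Ω ≤
      ∫⁻ z in Ω, ENNReal.ofReal (u z + L) ∂μ := by
  obtain ⟨F, -, h1, h2⟩ := h.key hw h0
  refine h2 u L ?_
  filter_upwards [h1, hu] with z a b k using a k _ (Real.exp_pos _).le (b k)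

/-- (M) Chebyshev form, moving the point `q`; `T` is any set, the bound is `exp (a z + c)` -/
theorem MQ.spread' (h : MQ μ d Ω R q) (hv : μ Ω ≠ ⊤) {w0 : ℂ} (hw : w0 ∈ R q) {m c : ℝ}
    (hm : Real.exp (c - m) ≤ ‖w0‖) {a : E → ℝ}
    (ha : ∀ᵐ z ∂μ, z ∈ Ω → ∀ w ∈ R z, ‖w‖ ≤ Real.exp (a z + c)) {L : ℝ} {T : Set E} (hs : T ⊆ Ω)
    (hT0 : ∀ᵐ z ∂μ, z ∈ T → ∀ w ∈ R z, ‖w‖ ≤ Real.exp (c - L)) :
    ENNReal.ofReal L * μ T ≤
      ENNReal.ofReal (m + Real.log (2 * d)) * μ Ω + ∫⁻ z in Ω, ENNReal.ofReal (a z) ∂μ := by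
  classical
  have w0' : 0 < ‖w0‖ := (Real.exp_pos _).trans_le hm
  obtain ⟨F, hF, h1, h2⟩ := h.key hw (norm_pos_iff.1 w0')
  set T' := Ω \ (Ω ∩ F ⁻¹' Ioi (Real.exp (c - L))) with hT'
  have hT : MeasurableSet T' := h.op.measurableSet.diff
    (hF.isOpen_inter_preimage h.op isOpen_Ioi).measurableSet
  have s1 : μ T ≤ μ T' := measure_mono_ae (by
    filter_upwards [h1, hT0] with z a b k
    exact ⟨hs k, fun k' => (a (hs k) _ (Real.exp_pos _).le (b k)).not_gt k'.2⟩)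
  have key := h2 (fun z => if z ∈ T' then c - L else a z + c) (L - c) (by
    filter_upwards [ha, h1] with z k1 k2 k
    split_ifs with t
    exacts [not_lt.1 fun k' => t.2 ⟨k, k'⟩, k2 k _ (Real.exp_pos _).le (k1 k)])
  have m1 := Real.log_le_log (Real.exp_pos _) hm
  rw [Real.log_exp] at m1
  have b : ∫⁻ z in Ω, ENNReal.ofReal ((if z ∈ T' then c - L else a z + c) + (L - c)) ∂μ ≤
      ENNReal.ofReal L * μ (Ω \ T') + ∫⁻ z in Ω, ENNReal.ofReal (a z) ∂μ := by
    rw [Set.sdiff_eq Ω T', inter_comm Ω T'ᶜ, ← Measure.restrict_apply hT.compl,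
      ← lintegral_indicator_const hT.compl,
      ← lintegral_add_left (measurable_const.indicator hT.compl)]
    refine lintegral_mono fun z => ?_
    by_cases t : z ∈ T'
    · simp [t]
    · simpa [t] using ENNReal.ofReal_add_le (p := L) (q := a z) |>.trans_eq' (by
        congr 1; ring)
  have fin : ENNReal.ofReal L * μ (Ω \ T') ≠ ⊤ :=
    ENNReal.mul_ne_top ENNReal.ofReal_ne_top (ne_top_of_le_ne_top hv (measure_mono sdiff_subset))
  refine (mul_le_mul_right s1 _).trans (ENNReal.le_of_add_le_add_left fin ?_)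
  rw [← mul_add, add_comm (μ _), ← measure_union disjoint_sdiff_self_right
    (h.op.measurableSet.diff hT), union_sdiff_cancel sdiff_subset, add_left_comm]
  refine le_trans ?_ (add_le_add_right (key.trans b) _)
  rw [← add_mul]
  exact mul_le_mul_left ((ENNReal.ofReal_le_ofReal (by linarith)).trans ENNReal.ofReal_add_le) _

theorem MQ.spread (h : MQ μ d Ω R q) (hv : μ Ω ≠ ⊤) {w0 : ℂ} (hw : w0 ∈ R q) {m : ℝ}
    (hm : Real.exp (-m) ≤ ‖w0‖) {a : E → ℝ}
    (ha : ∀ᵐ z ∂μ, z ∈ Ω → ∀ w ∈ R z, ‖w‖ ≤ Real.exp (a z)) {L : ℝ} {T : Set E} (hs : T ⊆ Ω)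
    (hT0 : ∀ᵐ z ∂μ, z ∈ T → ∀ w ∈ R z, ‖w‖ ≤ Real.exp (-L)) :
    ENNReal.ofReal L * μ T ≤
      ENNReal.ofReal (m + Real.log (2 * d)) * μ Ω + ∫⁻ z in Ω, ENNReal.ofReal (a z) ∂μ :=
  h.spread' hv hw (c := 0) (by simpa using hm) (by simpa using ha) hs (by simpa using hT0)

/-- (M) constant upper bound: the set where all values are small has a small fraction -/
theorem MQ.spread_const (h : MQ μ d Ω R q) (hv : μ Ω ≠ ⊤) {w0 : ℂ} (hw : w0 ∈ R q)
    {la La : ℝ} (h0 : 0 < la) (hm : la ≤ ‖w0‖) (hL : 0 < La)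
    (ha : ∀ᵐ z ∂μ, z ∈ Ω → ∀ w ∈ R z, ‖w‖ ≤ La) {N : ℝ} {T : Set E} (hs : T ⊆ Ω)
    (hlt : la < 2 * d * La)
    (hT0 : ∀ᵐ z ∂μ, z ∈ T → ∀ w ∈ R z, ‖w‖ ≤ La * (la / (2 * d * La)) ^ N) :
    ENNReal.ofReal N * μ T ≤ μ Ω := by
  have p : 0 < 2 * d * La := h0.trans hlt
  have d0 : (0 : ℝ) < 2 * d := (mul_pos_iff_of_pos_right hL).1 p
  set c := Real.log (2 * d * La / la) with hc
  have c0 : 0 < c := Real.log_pos ((one_lt_div h0).2 hlt)
  have key := h.spread' hv hw (c := Real.log La) (m := Real.log La - Real.log la) (a := fun _ => 0)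
    (by rwa [sub_sub_cancel, Real.exp_log h0]) (by simpa only [zero_add, Real.exp_log hL] using ha)
    (L := c * N) hs (hT0.mono fun z k t w hw => (k t w hw).trans_eq (by
      rw [sub_eq_add_neg, Real.exp_add, Real.exp_log hL, Real.rpow_def_of_pos (by positivity), hc,
        ← inv_div (2 * d * La), Real.log_inv, neg_mul]))
  rw [← ENNReal.mul_le_mul_iff_right (ENNReal.ofReal_pos.2 c0).ne' ENNReal.ofReal_ne_top,
    ← mul_assoc, ← ENNReal.ofReal_mul c0.le]
  refine key.trans_eq ?_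
  rw [hc, Real.log_div p.ne' h0.ne', Real.log_mul d0.ne' hL.ne']
  simp only [ENNReal.ofReal_zero, lintegral_const, zero_mul, add_zero]
  congr 2
  ring

end gen

variable {ι : Type} [Fintype ι] {Ω : Set (ι → ℂ)} {g : (ι → ℂ) → ℂ} {W : Submodule ℂ (ι → ℂ)}
  {d : ℕ} {R : (ι → ℂ) → Multiset ℂ}

/-- values on the sheets of a finite covering -/
theorem MV.of_cov {S : Type} [TopologicalSpace S] [MeasurableSpace S] [BorelSpace S] [T2Space S]
    {D : RD ι S} (C : D.Cov) {V : Set (ι → ℂ)} (hV : ∀ a ∈ V, MvPolynomial.eval a C.Δ ≠ 0)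
    {G : S → ℂ} (hG : ∀ p, D.π p ∈ V → DifferentiableAt ℂ (fun z => G (D.sec p z)) (D.π p)) :
    MV C.f.natDegree V fun a => (C.fin a).toFinset.val.map G := by
  refine ⟨fun a _ => by simpa using C.card_fib a, fun j a ha => ?_⟩
  have e : ∀ᶠ b in 𝓝 a, (C.fin b).toFinset.val.map G =
      (C.fin a).toFinset.val.map fun q => G (D.sec q b) := by
    have h1 : ∀ᶠ b in 𝓝 a, ∀ q ∈ D.π ⁻¹' {a}, D.π (D.sec q b) = b :=
      (eventually_all_finite (C.fin a)).2 fun q hq => by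
        have := D.π_sec_ev q; rwa [show D.π q = a from hq] at this
    have h2 : ∀ᶠ b in 𝓝 a, ∀ q ∈ D.π ⁻¹' {a}, ∀ q' ∈ D.π ⁻¹' {a},
        D.sec q b = D.sec q' b → q = q' :=
      (eventually_all_finite (C.fin a)).2 fun q hq =>
        (eventually_all_finite (C.fin a)).2 fun q' hq' => by
          by_cases h : q = q'
          · exact Eventually.of_forall fun _ _ => h
          · have t := D.tendsto_sec q
            have t' := D.tendsto_sec q'
            rw [show D.π q = a from hq] at t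
            rw [show D.π q' = a from hq'] at t'
            exact ((t.prodMk_nhds t').eventually (isClosed_diagonal.isOpen_compl.mem_nhds h)).mono
              fun b hb e => absurd e hb
    filter_upwards [h1, h2, C.sheets (hV a ha)] with b b1 b2 b3
    refine (Multiset.map_eq_map_of_bij_of_nodup _ _ (Finset.nodup _) (Finset.nodup _)
      (fun q _ => D.sec q b) (fun q hq => ?_) (fun q hq q' hq' => ?_) (fun p hp => ?_)
      fun _ _ => rfl).symm
    · simpa using b1 q (by simpa using hq)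
    · exact b2 q (by simpa using hq) q' (by simpa using hq')
    · obtain ⟨q, q1, q2⟩ := b3 p (by simpa using hp)
      exact ⟨q, by simpa using q1, q2.symm⟩
  refine DifferentiableAt.congr_of_eventuallyEq ?_ (e.mono fun b hb => by
    simp only [hb, Finset.esymm_map_val]; rfl)
  classical
  refine DifferentiableAt.fun_sum fun t ht => (HasFDerivAt.finsetProd fun q hq =>
    DifferentiableAt.hasFDerivAt ?_).differentiableAt
  have hq' : D.π q = a := by simpa using (Finset.mem_powersetCard.1 ht).1 hq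
  exact hq' ▸ hG q (hq' ▸ ha)

theorem MV.of_poly {Q : (MvPolynomial ι ℂ)[X]} (hQ : Q.Monic) (V : Set (ι → ℂ)) :
    MV Q.natDegree V fun a => (Q.map (MvPolynomial.eval a)).roots :=
  (MV.of_monic isOpen_univ (fun _ _ => ⟨hQ.map _, hQ.natDegree_map _⟩) fun i z _ => by
    simpa only [coeff_map] using
      (mv_analytic (Q.coeff i) z).differentiableAt.differentiableWithinAt).mono (subset_univ V) le_rfl

/-- the symmetric functions extend -/
theorem MV.ext (h : MV d {z ∈ Ω | g z ≠ 0} R) (hΩ : IsOpen Ω) (hg : DifferentiableOn ℂ g Ω)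
    (ht : Thin Ω g W) (hb : SB Ω g W R) (j : ℕ) :
    ∃ H, DifferentiableOn ℂ H Ω ∧ ∀ z ∈ Ω, g z ≠ 0 → H z = (R z).esymm j := by
  refine riemann hΩ hg ht (fun z hz k => h.hol j z ⟨hz, k⟩) fun z hz => ?_
  obtain ⟨U, hU, hb⟩ := hb z hz
  refine ⟨U ∩ Ω, inter_mem hU (hΩ.mem_nhds hz), hb.mono fun y hy k => ?_⟩
  obtain ⟨A, hA⟩ := hy k.1
  refine ⟨(d * |A|) ^ j, fun v hv k1 k2 w hw => ?_⟩
  rw [Multiset.mem_singleton.1 hw]
  exact norm_esymm_le (h.card _ ⟨k1.2, k2⟩) (abs_nonneg A)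
    (fun w hw => (hA v hv k1.1 k2 w hw).trans (le_abs_self A)) j

theorem MV.mq_off (h : MV d {z ∈ Ω | g z ≠ 0} R) (hΩ : IsOpen Ω) (hg : DifferentiableOn ℂ g Ω)
    (ht : Thin Ω g W) (hb : SB Ω g W R) {q : ι → ℂ} (hq : q ∈ Ω) (hq0 : g q ≠ 0)
    (hc : ∀ z ∈ Ω, ∀ a : ℂ, ‖a‖ ≤ 1 → q + a • (z - q) ∈ Ω) : MQ volume d Ω R q :=
  ⟨hΩ, hc, h.card q ⟨hq, hq0⟩, (ht.ae hΩ hg).mono fun z a b => h.card z ⟨b, a b⟩, fun j =>
    let ⟨H, h1, h2⟩ := h.ext hΩ hg ht hb j
    ⟨H, h1, h2 q hq hq0, (ht.ae hΩ hg).mono fun z a b => h2 z b (a b)⟩⟩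

/-- polydiscs are circled -/
theorem circ_pi (q : ι → ℂ) (r : ι → ℝ) : ∀ z ∈ univ.pi fun i => ball (q i) (r i), ∀ a : ℂ,
    ‖a‖ ≤ 1 → q + a • (z - q) ∈ univ.pi fun i => ball (q i) (r i) := fun z hz a ha i _ =>
  circ_ball (q i) (r i) (z i) (hz i trivial) a ha

end Pool.Agent.Lib.MP_5c318e_ag.Um
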