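import Pool.Agent.Lib.MP_5c318e_ag.S.RAlg
import Pool.Agent.Lib.MP_5c318e_ag.RD.RExt

/-! Riemann extension with bounds on almost every slice, and the mean value inequality for the
positive part of the logarithm. -/

set_option autoImplicit false
set_option linter.unusedSectionVars false

namespace Pool.Agent.Lib.MP_5c318e_ag.Um

open MeasureTheory Set Filter Topology Metric
open Pool.Agent.Lib.MP_9ff3e7_ag

variable {ι : Type} [Fintype ι]

/-- `g` does not vanish identically on a slice parallel to `W` (`W = ⊤`: on an open set) -/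
def Thin (Ω : Set (ι → ℂ)) (g : (ι → ℂ) → ℂ) (W : Submodule ℂ (ι → ℂ)) : Prop :=
  ∀ z ∈ Ω, ∃ᶠ v in 𝓝 (0 : ι → ℂ), v ∈ W ∧ g (z + v) ≠ 0

/-- locally, the values off `g = 0` are bounded on almost every slice parallel to `W` -/
def SB (Ω : Set (ι → ℂ)) (g : (ι → ℂ) → ℂ) (W : Submodule ℂ (ι → ℂ))
    (R : (ι → ℂ) → Multiset ℂ) : Prop :=
  ∀ z ∈ Ω, ∃ U ∈ 𝓝 z, ∀ᵐ y, y ∈ U → ∃ A : ℝ, ∀ v ∈ W, y + v ∈ U → g (y + v) ≠ 0 →
    ∀ w ∈ R (y + v), ‖w‖ ≤ A

variable {Ω : Set (ι → ℂ)} {g : (ι → ℂ) → ℂ} {W : Submodule ℂ (ι → ℂ)}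
  {R : (ι → ℂ) → Multiset ℂ}

theorem Thin.freq (ht : Thin Ω g W) {z : ι → ℂ} (hz : z ∈ Ω) : ∃ᶠ y in 𝓝 z, g y ≠ 0 := by
  have t : Tendsto (fun v : ι → ℂ => z + v) (𝓝 0) (𝓝 z) := by
    simpa using (continuous_const_add z).tendsto 0
  exact t.frequently ((ht z hz).mono fun _ h => h.2)

theorem Thin.of_freq (h : ∀ z ∈ Ω, ∃ᶠ y in 𝓝 z, g y ≠ 0) : Thin Ω g ⊤ := fun z hz => by
  have t : Tendsto (fun y : ι → ℂ => y - z) (𝓝 z) (𝓝 0) := by
    simpa using (continuous_sub_right z).tendsto z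
  exact t.frequently ((h z hz).mono fun y hy => ⟨trivial, by simpa using hy⟩)

theorem Thin.top (ht : Thin Ω g W) : Thin Ω g ⊤ := .of_freq fun _ hz => ht.freq hz

theorem Thin.mono (ht : Thin Ω g W) {Ω' : Set (ι → ℂ)} (h : Ω' ⊆ Ω) : Thin Ω' g W :=
  fun z hz => ht z (h hz)

theorem Thin.ae (ht : Thin Ω g W) (hΩ : IsOpen Ω) (hg : DifferentiableOn ℂ g Ω) :
    ∀ᵐ z, z ∈ Ω → g z ≠ 0 := by
  refine measure_mono_null (t := {z ∈ Ω | g z = 0}) (fun z hz => by simpa using hz)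
    (measure_null_of_locally_null _ fun x hx => ?_)
  obtain ⟨δ, δ0, h⟩ := RD.null_ana (F.osgood hΩ hg x hx.1)
    (fun e => (ht.freq hx.1) (e.mono fun _ h => not_not.2 h))
  refine ⟨_, inter_mem_nhdsWithin _ (ball_mem_nhds x δ0), measure_mono_null (fun z hz => ?_) h⟩
  exact fun k => k hz.2 hz.1.2

theorem Thin.of_ae (hΩ : IsOpen Ω) (h : ∀ᵐ z, z ∈ Ω → g z ≠ 0) : Thin Ω g ⊤ :=
  .of_freq fun z hz e => by
    have := (Measure.measure_pos_of_mem_nhds volume (e.and (hΩ.mem_nhds hz))).ne'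
    refine this (measure_mono_null (t := {z | ¬ (z ∈ Ω → g z ≠ 0)}) (fun y hy k => ?_) h)
    exact hy.1 (k hy.2)

theorem Thin.mul {g' : (ι → ℂ) → ℂ} {W' : Submodule ℂ (ι → ℂ)} (ht : Thin Ω g W)
    (ht' : Thin Ω g' W') (hΩ : IsOpen Ω) (hg : DifferentiableOn ℂ g Ω)
    (hg' : DifferentiableOn ℂ g' Ω) : Thin Ω (fun z => g z * g' z) ⊤ :=
  .of_ae hΩ (by
    filter_upwards [ht.ae hΩ hg, ht'.ae hΩ hg'] with z a b hz using mul_ne_zero (a hz) (b hz))

theorem thin_poly {P : MvPolynomial ι ℂ} (hP : P ≠ 0) :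
    Thin Ω (fun z => MvPolynomial.eval z P) ⊤ :=
  .of_freq fun z _ e => hP (MvPolynomial.funext fun y => by
    have a : AnalyticOnNhd ℂ (fun z : ι → ℂ => MvPolynomial.eval z P) univ :=
      AnalyticOnNhd.eval_mvPolynomial P
    simpa using a.eqOn_zero_of_preconnected_of_eventuallyEq_zero isPreconnected_univ (mem_univ z)
      (e.mono fun _ h => not_not.1 h) (mem_univ y))

theorem thin_coord (i : ι) : Thin Ω (fun z => z i) ⊤ := by
  simpa using thin_poly (Ω := Ω) (MvPolynomial.X_ne_zero (R := ℂ) i)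

/-- a bound off `g = 0` for continuous functions holds everywhere -/
theorem Thin.le (ht : Thin Ω g W) {z : ι → ℂ} (hz : z ∈ Ω) {a b : (ι → ℂ) → ℝ}
    (ha : ContinuousAt a z) (hb : ContinuousAt b z) (h : ∀ᶠ y in 𝓝 z, g y ≠ 0 → a y ≤ b y) :
    a z ≤ b z := by
  by_contra hn
  exact ((ht.freq hz).and_eventually (h.and (hb.eventually_lt ha (not_le.1 hn)))).exists.elim
    fun y k => (k.2.1 k.1).not_gt k.2.2

theorem SB.of_ev (h : ∀ z ∈ Ω, ∃ A : ℝ, ∀ᶠ y in 𝓝 z, g y ≠ 0 → ∀ w ∈ R y, ‖w‖ ≤ A) :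
    SB Ω g W R := fun z hz =>
  let ⟨A, hA⟩ := h z hz
  ⟨_, hA, .of_forall fun _ _ => ⟨A, fun _ _ k => k⟩⟩

theorem SB.of_le {A : ℝ} (h : ∀ z ∈ Ω, g z ≠ 0 → ∀ w ∈ R z, ‖w‖ ≤ A) (hΩ : IsOpen Ω) :
    SB Ω g W R := .of_ev fun _ hz => ⟨A, mem_of_superset (hΩ.mem_nhds hz) h⟩

/-- one variable: a bounded function off the zeros of `G` has the mean value property -/
theorem slice {f G : ℂ → ℂ} (hG : AnalyticOnNhd ℂ G (closedBall 0 1))
    (h0 : ∀ t ∈ sphere (0 : ℂ) 1, G t ≠ 0)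
    (hf : ∀ t ∈ closedBall (0 : ℂ) 1, G t ≠ 0 → AnalyticAt ℂ f t) {A : ℝ}
    (hA : ∀ t ∈ closedBall (0 : ℂ) 1, G t ≠ 0 → ‖f t‖ ≤ A) (h : G 0 ≠ 0) :
    f 0 = Real.circleAverage f 0 1 := by
  set M := fun z => limUnder (𝓝[≠] z) f with hM
  have e : ∀ t, AnalyticAt ℂ f t → M =ᶠ[𝓝 t] f := fun t ht =>
    ht.eventually_analyticAt.mono fun y hy => hy.continuousAt.continuousWithinAt.tendsto.limUnder_eq
  have z0 : (0 : ℂ) ∈ closedBall (0 : ℂ) 1 := mem_closedBall_self zero_le_one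
  have Md : DifferentiableOn ℂ M (closedBall 0 1) := fun t ht => by
    refine DifferentiableAt.differentiableWithinAt ?_
    by_cases k : G t = 0
    swap
    · exact (hf t ht k).differentiableAt.congr_of_eventuallyEq (e t (hf t ht k))
    have tb : t ∈ ball (0 : ℂ) 1 := by
      by_contra hb
      exact h0 t (by rw [← closedBall_sdiff_ball]; exact ⟨ht, hb⟩) k
    have ne := (hG t ht).eventually_eq_zero_or_eventually_ne_zero.resolve_left fun e =>
      h (hG.eqOn_zero_of_preconnected_of_eventuallyEq_zero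
        (convex_closedBall _ _).isPreconnected ht e z0)
    rw [eventually_nhdsWithin_iff] at ne
    have s := ne.and (isOpen_ball.mem_nhds tb)
    have an : ∀ y ∈ {y | (y ∈ ({t} : Set ℂ)ᶜ → G y ≠ 0) ∧ y ∈ ball (0 : ℂ) 1} \ {t},
        AnalyticAt ℂ f y := fun y hy => hf y (ball_subset_closedBall hy.1.2) (hy.1.1 hy.2)
    have d := Complex.differentiableOn_update_limUnder_of_bddAbove s
      (fun y hy => (an y hy).differentiableAt.differentiableWithinAt)
      ⟨A, by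
        rintro _ ⟨y, hy, rfl⟩
        exact hA y (ball_subset_closedBall hy.1.2) (hy.1.1 hy.2)⟩
    refine (d.differentiableAt s).congr_of_eventuallyEq (mem_of_superset s fun y hy => ?_)
    by_cases c : y = t
    · simp [c, hM]
    · simpa [Function.update_of_ne c] using (e y (an y ⟨hy, c⟩)).self_of_nhds
  rw [← (e 0 (hf 0 z0 h)).self_of_nhds, ← DiffContOnCl.circleAverage (f := M) (c := 0) (R := 1) (by
    simpa using (Md.mono closure_ball_subset_closedBall).diffContOnCl)]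
  refine Real.circleAverage_congr_sphere fun t ht => ?_
  rw [abs_one] at ht
  exact (e t (hf t (sphere_subset_closedBall ht) (h0 t ht))).self_of_nhds

theorem exists_dir {y0 : ι → ℂ} {δ : ℝ} (hδ : 0 < δ) (hb : AnalyticOnNhd ℂ g (ball y0 δ))
    (h : ∃ᶠ v in 𝓝 (0 : ι → ℂ), v ∈ W ∧ g (y0 + v) ≠ 0) :
    ∃ v ∈ W, ‖v‖ < δ ∧ ∀ t ∈ sphere (0 : ℂ) 1, g (y0 + t • v) ≠ 0 := by
  obtain ⟨w, ⟨hW, hw0⟩, hw⟩ := (h.and_eventually (ball_mem_nhds 0 hδ)).exists
  rw [dist_zero_right] at hw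
  have hg := F.Riem.line_an (v := w) (η := δ - ‖w‖) (by linarith) (mem_ball_self (by linarith)) hb
  have z0 : (0 : ℂ) ∈ closedBall (0 : ℂ) 1 := mem_closedBall_self zero_le_one
  have ne := (hg 0 z0).eventually_eq_zero_or_eventually_ne_zero.resolve_left fun h =>
    hw0 (by simpa using hg.eqOn_zero_of_preconnected_of_eventuallyEq_zero
              (convex_closedBall _ _).isPreconnected z0 h (x := 1) (by simp))
  rw [eventually_nhdsWithin_iff, Metric.eventually_nhds_iff_ball] at ne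
  obtain ⟨ρ, ρ0, hρ⟩ := ne
  have s0 : 0 < min (ρ / 2) 1 := by positivity
  refine ⟨((min (ρ / 2) 1 : ℝ) : ℂ) • w, W.smul_mem _ hW, ?_, fun t ht => ?_⟩
  · rw [norm_smul, Complex.norm_real, Real.norm_of_nonneg s0.le]
    exact (mul_le_of_le_one_left (norm_nonneg _) (min_le_right _ _)).trans_lt hw
  · have n : ‖t * ((min (ρ / 2) 1 : ℝ) : ℂ)‖ = min (ρ / 2) 1 := by
      rw [norm_mul, mem_sphere_zero_iff_norm.1 ht, one_mul, Complex.norm_real,
        Real.norm_of_nonneg s0.le]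
    rw [smul_smul]
    refine hρ _ (mem_ball_zero_iff.2 ?_) (norm_pos_iff.1 ?_)
    · rw [n]
      exact (min_le_left _ _).trans_lt (by linarith)
    · rwa [n]

theorem riemann_loc (hΩ : IsOpen Ω) (hg : DifferentiableOn ℂ g Ω) (ht : Thin Ω g W)
    {f : (ι → ℂ) → ℂ} (hf : ∀ z ∈ Ω, g z ≠ 0 → DifferentiableAt ℂ f z)
    (hb : SB Ω g W fun z => {f z}) {y0 : ι → ℂ} (hy : y0 ∈ Ω) :
    ∃ h : (ι → ℂ) → ℂ, ∀ᶠ y in 𝓝 y0, DifferentiableAt ℂ h y ∧ (g y ≠ 0 → h y = f y) := by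
  obtain ⟨U, hU, hb⟩ := hb y0 hy
  obtain ⟨δ, hδ, hs⟩ := Metric.mem_nhds_iff.1 (inter_mem hU (hΩ.mem_nhds hy))
  have ga : AnalyticOnNhd ℂ g (ball y0 δ) := (F.osgood hΩ hg).mono fun y k => (hs k).2
  obtain ⟨v, hW, hv, h0⟩ := exists_dir hδ ga (ht y0 hy)
  have O : IsOpen (ball y0 δ ∩ {y | g y ≠ 0}) :=
    ga.continuousOn.isOpen_inter_preimage isOpen_ball isOpen_ne
  have qa : AnalyticOnNhd ℂ f (ball y0 δ ∩ {y | g y ≠ 0}) :=
    F.osgood O fun y k => (hf y (hs k.1).2 k.2).differentiableWithinAt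
  have K : IsCompact ((fun t : ℂ => y0 + t • v) '' sphere 0 1) :=
    (isCompact_sphere _ _).image (by fun_prop)
  obtain ⟨η1, η0, hη⟩ := K.exists_cthickening_subset_open O (by
    rintro _ ⟨t, ht, rfl⟩
    exact ⟨F.Riem.line_mem (η := δ - ‖v‖) (by linarith) (mem_ball_self (by linarith))
      (sphere_subset_closedBall ht), h0 t ht⟩)
  obtain ⟨η, e0, e1, e2⟩ : ∃ η : ℝ, 0 < η ∧ η ≤ η1 ∧ ‖v‖ + η ≤ δ :=
    ⟨min η1 (δ - ‖v‖), lt_min η0 (by linarith), min_le_left _ _,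
      by linarith [min_le_right η1 (δ - ‖v‖)]⟩
  have m : ∀ y ∈ ball y0 η, ∀ t ∈ sphere (0 : ℂ) 1,
      y + t • v ∈ cthickening η1 ((fun t : ℂ => y0 + t • v) '' sphere 0 1) := fun y hy t ht =>
    mem_cthickening_of_dist_le _ _ _ _ ⟨t, ht, rfl⟩ (by
      rw [dist_add_right]
      exact (mem_ball.1 hy).le.trans e1)
  have d := F.Riem.avg_diff K.cthickening (qa.mono hη) m
  have s : ball y0 η ⊆ ball y0 δ := ball_subset_ball (by linarith [norm_nonneg v])
  have O' : IsOpen (ball y0 η ∩ {y | g y ≠ 0}) :=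
    (ga.continuousOn.mono s).isOpen_inter_preimage isOpen_ball isOpen_ne
  have E := Measure.eqOn_open_of_ae_eq (μ := volume) (f := f) ?_ O'
    (qa.continuousOn.mono (inter_subset_inter_left _ s)) (d.continuousOn.mono inter_subset_left)
  · exact ⟨_, mem_of_superset (ball_mem_nhds y0 e0) fun y k =>
      ⟨d.differentiableAt (isOpen_ball.mem_nhds k), fun k' => (E ⟨k, k'⟩).symm⟩⟩
  filter_upwards [ae_restrict_of_ae hb, ae_restrict_mem O'.measurableSet] with y h1 k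
  obtain ⟨A, hA⟩ := h1 (hs (s k.1)).1
  have := slice (f := fun t : ℂ => f (y + t • v)) (F.Riem.line_an e2 k.1 ga)
    (fun t ht => (hη (m y k.1 t ht)).2)
    (fun t ht c => AnalyticAt.comp (g := f) (f := fun t : ℂ => y + t • v)
      (qa _ ⟨F.Riem.line_mem e2 k.1 ht, c⟩) (by fun_prop)) (A := A)
    (fun t ht c => hA _ (W.smul_mem t hW) (hs (F.Riem.line_mem e2 k.1 ht)).1 c _ (by simp))
    (by simpa using k.2)
  simpa using this

/-- Riemann extension, bounded on almost every slice -/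
theorem riemann (hΩ : IsOpen Ω) (hg : DifferentiableOn ℂ g Ω) (ht : Thin Ω g W)
    {f : (ι → ℂ) → ℂ} (hf : ∀ z ∈ Ω, g z ≠ 0 → DifferentiableAt ℂ f z)
    (hb : SB Ω g W fun z => {f z}) :
    ∃ H, DifferentiableOn ℂ H Ω ∧ ∀ z ∈ Ω, g z ≠ 0 → H z = f z := by
  have key : ∀ y0 ∈ Ω, ∃ h : (ι → ℂ) → ℂ, ∀ᶠ y in 𝓝 y0, DifferentiableAt ℂ h y ∧
      (g y ≠ 0 → h y = f y) ∧ limUnder (𝓝[{y | g y ≠ 0}] y) f = h y := fun y0 hy => by
    obtain ⟨h, hh⟩ := riemann_loc hΩ hg ht hf hb hy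
    refine ⟨h, ?_⟩
    filter_upwards [hh.eventually_nhds, hΩ.mem_nhds hy] with y k ky
    have : (𝓝[{y | g y ≠ 0}] y).NeBot :=
      mem_closure_iff_nhdsWithin_neBot.1 (mem_closure_iff_frequently.2 (ht.freq ky))
    refine ⟨k.self_of_nhds.1, k.self_of_nhds.2, Tendsto.limUnder_eq ?_⟩
    refine (k.self_of_nhds.1.continuousAt.continuousWithinAt.tendsto).congr' ?_
    exact eventually_nhdsWithin_iff.2 (k.mono fun _ a b => a.2 b)
  refine ⟨fun y => limUnder (𝓝[{y | g y ≠ 0}] y) f, fun y hy => ?_, fun y hy k => ?_⟩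
  · obtain ⟨h, hh⟩ := key y hy
    exact (hh.self_of_nhds.1.congr_of_eventuallyEq (hh.mono fun _ a => a.2.2)).differentiableWithinAt
  · obtain ⟨h, hh⟩ := key y hy
    exact hh.self_of_nhds.2.2.trans (hh.self_of_nhds.2.1 k)

theorem circ_log {f : ℂ → ℂ} (hf : DifferentiableOn ℂ f (closedBall 0 1)) :
    Real.log ‖f 0‖ ≤ Real.circleAverage (fun z => Real.posLog ‖f z‖) 0 1 := by
  have c : ContinuousOn (fun z => ‖f z‖) (sphere (0 : ℂ) 1) :=
    (hf.continuousOn.mono sphere_subset_closedBall).norm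
  have c1 : ContinuousOn (fun z => Real.posLog ‖f z‖) (sphere (0 : ℂ) 1) :=
    Real.continuous_posLog.comp_continuousOn c
  have i1 := c1.circleIntegrable zero_le_one
  rcases (norm_nonneg (f 0)).eq_or_lt with h0 | h0
  · rw [← h0, Real.log_zero, ← Real.circleAverage_const (0 : ℝ) 0 1]
    exact Real.circleAverage_mono (continuousOn_const.circleIntegrable zero_le_one) i1
      fun _ _ => Real.posLog_nonneg
  obtain ⟨K, hK⟩ := (isCompact_sphere (0 : ℂ) 1).exists_bound_of_continuousOn c1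
  have K0 : 0 ≤ K := (norm_nonneg _).trans (hK 1 (by simp))
  refine le_of_forall_pos_le_add fun ε ε0 => ?_
  obtain ⟨s, s0, s1, s2⟩ : ∃ s : ℝ, 0 < s ∧ s * K ≤ 1 ∧ s * K ^ 2 ≤ ε := by
    refine ⟨min 1 ε / (K + 1) ^ 2, by positivity, ?_, ?_⟩ <;>
      rw [div_mul_eq_mul_div, div_le_iff₀ (by positivity)]
    · nlinarith [min_le_left 1 ε, lt_min one_pos ε0]
    · nlinarith [min_le_right 1 ε, lt_min one_pos ε0]
  have h1 := Rat.circ_rpow hf s0
  have h2 : Real.circleAverage (fun z => ‖f z‖ ^ s) 0 1 ≤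
      Real.circleAverage (fun z => (1 + s * ε) + s • Real.posLog ‖f z‖) 0 1 := by
    refine Real.circleAverage_mono ((c.rpow_const fun _ _ => Or.inr s0.le).circleIntegrable
      zero_le_one) ((continuousOn_const.add (c1.const_smul s)).circleIntegrable zero_le_one)
      fun z hz => ?_
    rw [abs_one] at hz
    have p0 : 0 ≤ Real.posLog ‖f z‖ := Real.posLog_nonneg
    have pK : Real.posLog ‖f z‖ ≤ K := (le_abs_self _).trans (hK z hz)
    have a : ‖f z‖ ^ s ≤ Real.exp (s * Real.posLog ‖f z‖) := by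
      rw [Real.posLog_eq_log_max_one (norm_nonneg _), mul_comm,
        ← Real.rpow_def_of_pos (lt_max_of_lt_left one_pos)]
      exact Real.rpow_le_rpow (norm_nonneg _) (le_max_right _ _) s0.le
    have b := Real.abs_exp_sub_one_sub_id_le (x := s * Real.posLog ‖f z‖) (by
      rw [abs_of_nonneg (by positivity)]
      exact (mul_le_mul_of_nonneg_left pK s0.le).trans s1)
    have e : (s * Real.posLog ‖f z‖) ^ 2 ≤ s * ε :=
      calc _ ≤ (s * K) ^ 2 := by gcongr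
        _ = s * (s * K ^ 2) := by ring
        _ ≤ _ := by gcongr
    rw [smul_eq_mul]
    linarith [(abs_le.1 b).2]
  rw [Real.circleAverage_fun_add (f₂ := fun z => s • Real.posLog ‖f z‖)
    (continuousOn_const.circleIntegrable zero_le_one)
    ((c1.const_smul s).circleIntegrable zero_le_one), Real.circleAverage_const,
    Real.circleAverage_fun_smul, smul_eq_mul] at h2
  have h3 := Real.add_one_le_exp (Real.log ‖f 0‖ * s)
  rw [← Real.rpow_def_of_pos h0] at h3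
  refine le_of_mul_le_mul_left ?_ s0
  linarith

theorem ofReal_posLog (x : ℝ) : ENNReal.ofReal (Real.posLog x) = ENNReal.ofReal (Real.log x) := by
  rw [Real.posLog_apply, ENNReal.ofReal_max, ENNReal.ofReal_zero, max_eq_right zero_le]

/-- submean inequality for `log⁺ |G|` on any open set circled about `q` -/
theorem submean_log {q : ι → ℂ} (hΩ : IsOpen Ω)
    (hc : ∀ z ∈ Ω, ∀ a : ℂ, ‖a‖ ≤ 1 → q + a • (z - q) ∈ Ω) {G : (ι → ℂ) → ℂ}
    (hG : DifferentiableOn ℂ G Ω) :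
    ENNReal.ofReal (Real.log ‖G q‖) * volume Ω ≤
      ∫⁻ z in Ω, ENNReal.ofReal (Real.log ‖G z‖) := by
  classical
  let g := Ω.indicator fun y => ENNReal.ofReal (Real.posLog ‖G y‖)
  have gm : Measurable g := F.Riem.meas_ind hΩ (ENNReal.continuous_ofReal.comp_continuousOn
    (Real.continuous_posLog.comp_continuousOn hG.continuousOn.norm))
  have key : ∀ y ∈ (fun y => q + y) ⁻¹' Ω, ENNReal.ofReal (Real.log ‖G q‖) ≤
      ∫⁻ t : F.Osg.Tc, g (q + fourier 1 t • y) ∂AddCircle.haarAddCircle := fun y hy => by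
    have m : ∀ a : ℂ, ‖a‖ ≤ 1 → q + a • y ∈ Ω := fun a ha => by simpa using hc _ hy a ha
    have d : DifferentiableOn ℂ (fun a : ℂ => G (q + a • y)) (closedBall 0 1) :=
      hG.comp (by fun_prop) fun a ha => m a (mem_closedBall_zero_iff.1 ha)
    have e := circ_log d
    rw [zero_smul, add_zero] at e
    have e2 := F.Osg.avg fun a : ℂ => ((Real.posLog ‖G (q + a • y)‖ : ℝ) : ℂ)
    have e3 : Real.circleAverage (fun a : ℂ => ((Real.posLog ‖G (q + a • y)‖ : ℝ) : ℂ)) 0 1 =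
        (Real.circleAverage (fun a : ℂ => Real.posLog ‖G (q + a • y)‖) 0 1 : ℝ) := by
      simp only [Real.circleAverage, intervalIntegral.integral_ofReal, Complex.real_smul,
        smul_eq_mul, Complex.ofReal_mul]
    refine (ENNReal.ofReal_le_ofReal (e.trans (le_abs_self _))).trans ?_
    rw [← Real.norm_eq_abs, ← Complex.norm_real, ← e3, ← e2, ofReal_norm]
    refine (enorm_integral_le_lintegral_enorm _).trans_eq (lintegral_congr fun t => ?_)
    simp only [g]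
    rw [Set.indicator_of_mem (m _ (F.Osg.nrm t).le), ← ofReal_norm, Complex.norm_real,
      Real.norm_of_nonneg Real.posLog_nonneg]
  calc _ = ∫⁻ _ in (fun y => q + y) ⁻¹' Ω, ENNReal.ofReal (Real.log ‖G q‖) := by
        rw [setLIntegral_const, measure_preimage_add]
    _ ≤ ∫⁻ y, ∫⁻ t : F.Osg.Tc, g (q + fourier 1 t • y) ∂AddCircle.haarAddCircle :=
        (setLIntegral_mono' (hΩ.preimage (continuous_const_add q)).measurableSet key).trans
          (setLIntegral_le_lintegral _ _)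
    _ = ∫⁻ t : F.Osg.Tc, (∫⁻ y, g (q + fourier 1 t • y)) ∂AddCircle.haarAddCircle :=
        lintegral_lintegral_swap (gm.comp (Continuous.measurable (by fun_prop))).aemeasurable
    _ = ∫⁻ _ : F.Osg.Tc, (∫⁻ y, g y) ∂AddCircle.haarAddCircle :=
        lintegral_congr fun t => (F.rot_pres q _).lintegral_comp gm
    _ = _ := by
        rw [lintegral_const, measure_univ, mul_one, lintegral_indicator hΩ.measurableSet]
        simp only [ofReal_posLog]

end Pool.Agent.Lib.MP_5c318e_ag.Um
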